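import Pool.Agent.Helper793.PsiOne.Final

set_option autoImplicit false

namespace Pool.Agent.Results.MP_6099bd_nt.ManyPrimes

/-- Dedekind's function: `n` divided by the product of its prime factors, times the product of
`p + 1` over those primes. -/
def psi (n : ℕ) : ℕ := (n / ∏ p ∈ n.primeFactors, p) * (∏ p ∈ n.primeFactors, (p + 1))

/-- Necessary conditions for a composite `n` with `ψ(n) ≡ 1 (mod n)`. -/
theorem result :
    ∀ n : ℕ, 1 < n → ¬ n.Prime → psi n ≡ 1 [MOD n] →
      Squarefree n ∧ Odd n ∧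
      (∀ p q : ℕ, p.Prime → q.Prime → p ∣ n → q ∣ n → ¬ q ∣ p + 1) ∧
      3 * n + 1 ≤ psi n ∧
      495 ≤ n.primeFactors.card ∧
      10 ^ 1512 ≤ n := by
  intro n hn hnp h
  have hm := Pool.Helper793.PsiOne.main hn hnp h
  refine ⟨?_, Pool.Helper793.PsiOne.odd_n hn hnp h,
    fun p q hp hq hpn hqn => Pool.Helper793.PsiOne.no_minus hn h hp hpn hq hqn,
    Pool.Helper793.PsiOne.three_le hn hnp h, hm.1, hm.2⟩
  have hrad := Pool.Helper793.PsiOne.eq_rad hn h
  rw [Nat.squarefree_iff_prime_squarefree]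
  intro p hp hpp
  have hpn : p ∣ n := (Dvd.intro p rfl).trans hpp
  have hpS : p ∈ n.primeFactors := Nat.mem_primeFactors.2 ⟨hp, hpn, by omega⟩
  have h3 : p * ∏ x ∈ n.primeFactors.erase p, x = n := by
    rw [Finset.mul_prod_erase _ (fun x => x) hpS]
    exact hrad.symm
  rw [← h3] at hpp
  have h4 := Nat.dvd_of_mul_dvd_mul_left hp.pos hpp
  obtain ⟨x, hx, hpx⟩ := (Prime.dvd_finset_prod_iff hp.prime (fun x => x)).1 h4
  have hx' := Finset.mem_of_mem_erase hx
  have := (Nat.prime_dvd_prime_iff_eq hp (Nat.prime_of_mem_primeFactors hx')).1 hpx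
  exact Finset.ne_of_mem_erase hx this.symm

end Pool.Agent.Results.MP_6099bd_nt.ManyPrimes
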